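import Pool.Agent.Lib.MP_6f4751_nt.Exact3

/-! The exact set of multipliers for the weighted sums of squares of `R n r`. -/

set_option autoImplicit false

namespace Pool.Agent.Results.MP_6f4751_nt.LeastMultiplier

/-- `R n r = ∑_{k=0}^{n} C(n+k,2k) C(2k,k) / (2k-2r-1)`. -/
def R (n r : ℕ) : ℚ :=
  ∑ k ∈ Finset.range (n + 1),
    ((n + k).choose (2 * k) : ℚ) * ((2 * k).choose k : ℚ) * (1 / (2 * (k : ℚ) - 2 * (r : ℚ) - 1))

/-- `S n r = ∑_{k=0}^{n-1} (2k+1) (R k r)^2`. -/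
def S (n r : ℕ) : ℚ := ∑ k ∈ Finset.range n, (2 * (k : ℚ) + 1) * R k r ^ 2

/-- Weight of the level `e`: for `e ≤ g` it is `2` if `p^e ∣ r+1` and `1` otherwise; for `e > g`
it is `2` if `p^e ≤ 2 (r mod p^e) + 1` and `0` otherwise. -/
def level (p r g e : ℕ) : ℕ :=
  if e ≤ g then (if p ^ e ∣ r + 1 then 2 else 1) else if p ^ e ≤ 2 * (r % p ^ e) + 1 then 2 else 0

/-- The maximum over `0 ≤ g ≤ E` of the sum of the weights of the levels `1, ..., E`, where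
`E = ⌊log_p (2r+1)⌋`. -/
def expo (p r : ℕ) : ℕ :=
  (Finset.range (Nat.log p (2 * r + 1) + 1)).sup fun g =>
    ∑ e ∈ Finset.Icc 1 (Nat.log p (2 * r + 1)), level p r g e

/-- The product of `p ^ expo p r` over the odd primes `p ≤ 2r+1`. -/
def A (r : ℕ) : ℕ :=
  ∏ p ∈ (Finset.range (2 * r + 2)).filter (fun p => p.Prime ∧ p ≠ 2), p ^ expo p r

/-- The integers `a` for which `a * S n r / n` is an integer for every `n ≥ 1` are exactly the
multiples of `A r`. -/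
theorem result (r : ℕ) (a : ℤ) :
    (∀ n : ℕ, 0 < n → ∃ z : ℤ, (a : ℚ) * S n r / (n : ℚ) = (z : ℚ)) ↔ (A r : ℤ) ∣ a := by
  have h : ∀ k : ℕ, R k r = ∑ i ∈ Finset.range (k + 1), Pool.Agent.Lib.MP_6f4751_nt.PP k i /
      Pool.Agent.Lib.MP_6f4751_nt.dd i (r + 1) := fun k => by
    refine Finset.sum_congr rfl fun i _ => ?_
    simp only [Pool.Agent.Lib.MP_6f4751_nt.PP, Pool.Agent.Lib.MP_6f4751_nt.dd]
    push_cast
    rw [mul_one_div]
    congr 1
    ring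
  simp only [S, h]
  exact Pool.Agent.Lib.MP_6f4751_nt.exact_main r a

/-- The posed question follows with the nonzero multiplier `A r`. -/
theorem posed (r : ℕ) : ∃ a : ℤ, a ≠ 0 ∧
    ∀ n : ℕ, 0 < n → Nat.Coprime ((a : ℚ) * S n r / (n : ℚ)).den n := by
  refine ⟨A r, Int.natCast_ne_zero.2 (Pool.Agent.Lib.MP_6f4751_nt.AA_ne r), fun n hn => ?_⟩
  obtain ⟨z, hz⟩ := (result r (A r)).2 dvd_rfl n hn
  rw [hz]
  simp

end Pool.Agent.Results.MP_6f4751_nt.LeastMultiplier
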