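import Pool.Agent.Lib.MP_6f4751_nt.H87Mix

/-! Weighted sums of products `R k r * R k s` modulo `n`. -/

set_option autoImplicit false

namespace Pool.Agent.Results.MP_6f4751_nt.MixedParity

/-- `R n r = ∑_{k=0}^{n} C(n+k,2k) C(2k,k) / (2k-2r-1)`. -/
def R (n r : ℕ) : ℚ :=
  ∑ k ∈ Finset.range (n + 1),
    ((n + k).choose (2 * k) : ℚ) * ((2 * k).choose k : ℚ) * (1 / (2 * (k : ℚ) - 2 * (r : ℚ) - 1))

/-- `S n r s = ∑_{k=0}^{n-1} (2k+1) (R k r) (R k s)`. -/
def S (n r s : ℕ) : ℚ := ∑ k ∈ Finset.range n, (2 * (k : ℚ) + 1) * (R k r * R k s)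

open Pool.Agent.Lib.MP_6f4751_nt in
theorem S_eq (n r s : ℕ) : S n r s = H87.TM n (r + 1) (s + 1) := by
  have h : ∀ k r : ℕ, R k r = ∑ i ∈ Finset.range (k + 1), PP k i / dd i (r + 1) := fun k r => by
    refine Finset.sum_congr rfl fun i _ => ?_
    simp only [PP, dd]
    push_cast
    rw [mul_one_div]
    congr 1
    ring
  simp only [S, H87.TM, h]

/-- A nonzero multiplier making `S n r s` congruent to `0` modulo `n` for all `n` exists exactly
when `r` and `s` have the same parity, and then the square of every common multiple of the odd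
numbers up to `2 max(r,s) + 1` makes `S n r s / n` an integer. -/
theorem result (r s : ℕ) :
    List.TFAE
      [r % 2 = s % 2,
        ∃ a : ℤ, a ≠ 0 ∧ ∀ n : ℕ, 0 < n → Nat.Coprime ((a : ℚ) * S n r s / (n : ℚ)).den n,
        ∀ A : ℕ, (∀ m ≤ max r s, 2 * m + 1 ∣ A) →
          ∀ n : ℕ, 0 < n → ∃ z : ℤ, (A : ℚ) ^ 2 * S n r s / (n : ℚ) = (z : ℚ)] := by
  simp only [S_eq]
  tfae_have 1 → 3 := fun h A hA n hn => Pool.Agent.Lib.MP_6f4751_nt.H87.even_case hA (by omega)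
    (by omega) (by omega) (by omega) (Nat.even_iff.2 (by omega)) hn
  tfae_have 3 → 2 := fun h => ⟨((2 * max r s + 1).factorial : ℤ) ^ 2, by positivity, fun n hn => by
    obtain ⟨z, hz⟩ := h (2 * max r s + 1).factorial
      (fun m hm => Nat.dvd_factorial (by omega) (by omega)) n hn
    push_cast
    rw [hz]
    simp⟩
  tfae_have 2 → 1 := fun ⟨a, ha, h⟩ => by
    by_contra c
    obtain ⟨n, hn, h'⟩ := Pool.Agent.Lib.MP_6f4751_nt.H87.odd_case (α := r + 1) (β := s + 1)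
      (by omega) (by omega) (Nat.odd_iff.2 (by omega)) ha
    exact h' (h n hn)
  tfae_finish

/-- The posed question with the conjectured multiplier is the case `s = r`. -/
theorem posed (r n : ℕ) (hn : 0 < n) : ∃ z : ℤ, ((2 * r + 1).doubleFactorial : ℚ) ^ 2 *
    (∑ k ∈ Finset.range n, (2 * (k : ℚ) + 1) * R k r ^ 2) / (n : ℚ) = (z : ℚ) := by
  have h : ∀ A : ℕ, (∀ m ≤ max r r, 2 * m + 1 ∣ A) →
      ∀ n : ℕ, 0 < n → ∃ z : ℤ, (A : ℚ) ^ 2 * S n r r / (n : ℚ) = (z : ℚ) :=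
    ((result r r).out 0 2).1 (rfl : r % 2 = r % 2)
  simpa only [S, sq] using h (2 * r + 1).doubleFactorial
    (fun m hm => Pool.Agent.Lib.MP_6f4751_nt.odd_dvd_doubleFactorial r m (by omega)) n hn

end Pool.Agent.Results.MP_6f4751_nt.MixedParity
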